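import Pool.Agent.X12.Leg

/-!
# The determinant of `((j+k)/p) - ((j-k)/p) + (j/p) y + (k/p) z` for `p ≡ 1 (mod 4)`

The matrix is bordered: its row and column with index `0` are `z χ` and `y χ`, and elementary
operations reduce the rest to the matrix `A` of the numbers `((j+k)/p) - ((j-k)/p)`, `1 ≤ j, k ≤ n`,
which satisfies `A ^ 2 = p`.  So the determinant is `- y z (χᵀ A χ) det A / p` with
`det A = ± p ^ ((p - 1) / 4)`, and the sum `χᵀ A χ` is divisible by `4`.
-/

set_option autoImplicit false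

namespace Pool.Agent.Results.MP_c81705_nt.MixedDeterminantQ2

open MvPolynomial Matrix Finset Pool.Agent.X12

/-- The determinant `E_p` of the matrix with entries
`((j+k)/p) - ((j-k)/p) + (j/p) y + (k/p) z`, `0 ≤ j, k ≤ (p-1)/2`, where `y = X 0` and `z = X 1`. -/
noncomputable def E (p : ℕ) [Fact p.Prime] : MvPolynomial (Fin 2) ℤ :=
  Matrix.det (Matrix.of fun j k : Fin ((p + 1) / 2) =>
    (C (legendreSym p ((j : ℤ) + k) - legendreSym p ((j : ℤ) - k)) +
      C (legendreSym p (j : ℤ)) * X 0 + C (legendreSym p (k : ℤ)) * X 1 : MvPolynomial (Fin 2) ℤ))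

/-- A symmetric array with even entries off the diagonal. -/
lemma four_dvd (f : ℕ → ℕ → ℤ) (n : ℕ) (hs : ∀ j k, f j k = f k j)
    (he : ∀ j k, j < n → k < n → j ≠ k → 2 ∣ f j k) :
    4 ∣ ∑ j ∈ range n, ∑ k ∈ range n, f j k - ∑ j ∈ range n, f j j := by
  induction n with
  | zero => simp
  | succ n ih =>
    have h1 := ih (fun j k hj hk => he j k (by omega) (by omega))
    have h2 : ∑ j ∈ range (n + 1), ∑ k ∈ range (n + 1), f j k - ∑ j ∈ range (n + 1), f j j =
        (∑ j ∈ range n, ∑ k ∈ range n, f j k - ∑ j ∈ range n, f j j) +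
          2 * ∑ j ∈ range n, f j n := by
      rw [Finset.sum_range_succ, Finset.sum_range_succ (fun j => f j j)]
      simp_rw [Finset.sum_range_succ (fun k => f _ k)]
      rw [Finset.sum_add_distrib, Finset.sum_congr rfl (fun k _ => hs n k)]
      ring
    rw [h2]
    refine dvd_add h1 ?_
    rw [show (4 : ℤ) = 2 * 2 by norm_num]
    refine mul_dvd_mul_left 2 (Finset.dvd_sum fun j hj => ?_)
    have := Finset.mem_range.1 hj
    exact he j n (by omega) (by omega) (by omega)

/-- The determinant of a bordered matrix whose kernel has the square `c`. -/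
lemma det_bordered {R : Type*} [CommRing R] {n : ℕ} (A : Matrix (Fin n) (Fin n) R)
    (u : Fin n → R) (y z c : R) (hA : A * A = c • (1 : Matrix (Fin n) (Fin n) R)) :
    (fromBlocks (0 : Matrix (Fin 1) (Fin 1) R) (of fun _ k => z * u k) (of fun j _ => y * u j)
      (of fun j k => A j k + u j * y + u k * z)).det * c =
      -(y * z * ∑ j, ∑ k, u j * A j k * u k) * A.det := by
  set rv : Matrix (Fin 1) (Fin n) R := of fun _ k => z * u k with hrv
  set cv : Matrix (Fin n) (Fin 1) R := of fun j _ => y * u j with hcv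
  set oc : Matrix (Fin n) (Fin 1) R := of fun _ _ => 1 with hoc
  set orw : Matrix (Fin 1) (Fin n) R := of fun _ _ => 1 with horw
  have h1 : fromBlocks (0 : Matrix (Fin 1) (Fin 1) R) rv cv
      (of fun j k => A j k + u j * y + u k * z) =
      fromBlocks 1 0 oc 1 * fromBlocks 0 rv cv A * fromBlocks 1 orw 0 1 := by
    rw [fromBlocks_multiply, fromBlocks_multiply]
    simp only [Matrix.mul_zero, Matrix.zero_mul, Matrix.one_mul, Matrix.mul_one, add_zero, zero_add]
    congr 1
    ext j k
    simp [hrv, hcv, hoc, horw, Matrix.mul_apply]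
    ring
  have h2 : (fromBlocks (0 : Matrix (Fin 1) (Fin 1) R) rv cv
      (of fun j k => A j k + u j * y + u k * z)).det = (fromBlocks 0 rv cv A).det := by
    rw [h1, det_mul, det_mul, det_fromBlocks_zero₁₂, det_fromBlocks_zero₂₁]
    simp
  rw [h2]
  have h3 : fromBlocks 0 rv cv A * fromBlocks (c • (1 : Matrix (Fin 1) (Fin 1) R)) 0 (-(A * cv)) 1 =
      fromBlocks (-(rv * (A * cv))) rv 0 A := by
    rw [fromBlocks_multiply]
    have e : A * -(A * cv) = -(c • cv) := by
      rw [Matrix.mul_neg, ← Matrix.mul_assoc, hA, Matrix.smul_mul, Matrix.one_mul]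
    rw [e]
    simp
  have h4 := congrArg Matrix.det h3
  rw [det_mul, det_fromBlocks_zero₁₂, det_fromBlocks_zero₂₁] at h4
  simp only [det_unique, Matrix.smul_apply, Matrix.one_apply_eq, smul_eq_mul, mul_one, det_one,
    Matrix.neg_apply] at h4
  rw [h4]
  congr 1
  simp only [hrv, hcv, Matrix.mul_apply, of_apply, Finset.mul_sum]
  congr 1
  refine Finset.sum_congr rfl fun j _ => Finset.sum_congr rfl fun k _ => ?_
  ring

section

variable {p : ℕ} [Fact p.Prime]

/-- The integer matrix `A`. -/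
noncomputable def A0 (p : ℕ) [Fact p.Prime] (n : ℕ) : Matrix (Fin n) (Fin n) ℤ :=
  of fun j k => qc p (((j : ℕ) : ZMod p) + 1 + (((k : ℕ) : ZMod p) + 1)) -
    qc p (((j : ℕ) : ZMod p) + 1 - (((k : ℕ) : ZMod p) + 1))

lemma A0_sq {n : ℕ} (hn : p = 2 * n + 1) (hp : p % 4 = 1) :
    A0 p n * A0 p n = (p : ℤ) • (1 : Matrix (Fin n) (Fin n) ℤ) := by
  have h2 : p ≠ 2 := by rintro rfl; norm_num at hp
  have hev : ∀ a : ZMod p, qc p (-a) = qc p a := fun a => by
    rw [qc_neg, qc_neg_one_of_one hp, one_mul]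
  ext j l
  have hj := j.2
  have hl := l.2
  set a : ZMod p := ((j : ℕ) : ZMod p) + 1 with ha
  set b : ZMod p := ((l : ℕ) : ZMod p) + 1 with hb
  let f : ZMod p → ℤ := fun k => (qc p (a + k) - qc p (a - k)) * (qc p (k + b) - qc p (k - b))
  have hf : ∀ k, f (-k) = f k := by
    intro k
    show (qc p (a + -k) - qc p (a - -k)) * (qc p (-k + b) - qc p (-k - b)) = _
    have e1 : a + -k = a - k := by ring
    have e2 : a - -k = a + k := by ring
    have e3 : -k + b = -(k - b) := by ring
    have e4 : -k - b = -(k + b) := by ring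
    rw [e1, e2, e3, e4, hev, hev]
    ring
  have h1 := sum_half_even hn f hf
  have h0 : f 0 = 0 := by
    show (qc p (a + 0) - qc p (a - 0)) * _ = 0
    simp
  have h3 : ∑ k, f k = (if a = b then 2 * (p : ℤ) else 0) := by
    have e : ∀ k, f k = qc p (k + a) * qc p (k + b) - qc p (k + a) * qc p (k + -b) -
        qc p (k + -a) * qc p (k + b) + qc p (k + -a) * qc p (k + -b) := by
      intro k
      show (qc p (a + k) - qc p (a - k)) * (qc p (k + b) - qc p (k - b)) = _
      have e1 : a - k = -(k + -a) := by ring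
      rw [e1, hev, add_comm a k, sub_eq_add_neg k b]
      ring
    rw [Finset.sum_congr rfl fun k _ => e k, Finset.sum_add_distrib, Finset.sum_sub_distrib,
      Finset.sum_sub_distrib, sum_qc_mul h2, sum_qc_mul h2, sum_qc_mul h2, sum_qc_mul h2]
    have n1 : a ≠ -b := half_ne_neg hn hj hl
    have n2 : -a ≠ b := fun h => n1 (by rw [← h]; ring)
    rw [if_neg n1, if_neg n2]
    by_cases hab : a = b
    · rw [if_pos hab, if_pos hab, if_pos (by rw [hab])]; ring
    · rw [if_neg hab, if_neg hab, if_neg (fun h => hab (neg_injective h))]; ring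
  have h4 : (A0 p n * A0 p n) j l = ∑ i ∈ range n, f ((i : ZMod p) + 1) := by
    rw [Matrix.mul_apply, ← Fin.sum_univ_eq_sum_range (fun i => f ((i : ZMod p) + 1)) n]
    rfl
  rw [h4]
  rw [h0, h3] at h1
  have hab : a = b ↔ j = l := by
    rw [ha, hb, half_inj hn hj hl]; exact Fin.ext_iff.symm
  by_cases h : j = l
  · rw [if_pos (hab.2 h)] at h1
    rw [h, Matrix.smul_apply, Matrix.one_apply_eq, smul_eq_mul, mul_one]
    linarith
  · rw [if_neg (fun h' => h (hab.1 h'))] at h1
    rw [Matrix.smul_apply, Matrix.one_apply_ne h, smul_zero]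
    linarith

lemma sum_dvd {n : ℕ} (hn : p = 2 * n + 1) (hp : p % 4 = 1) :
    4 ∣ ∑ j : Fin n, ∑ k : Fin n, qc p (((j : ℕ) : ZMod p) + 1) * A0 p n j k *
      qc p (((k : ℕ) : ZMod p) + 1) := by
  have h2 : p ≠ 2 := by rintro rfl; norm_num at hp
  have hev : ∀ a : ZMod p, qc p (-a) = qc p a := fun a => by
    rw [qc_neg, qc_neg_one_of_one hp, one_mul]
  let f : ℕ → ℕ → ℤ := fun j k => qc p ((j : ZMod p) + 1) *
    (qc p ((j : ZMod p) + 1 + ((k : ZMod p) + 1)) - qc p ((j : ZMod p) + 1 - ((k : ZMod p) + 1))) *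
      qc p ((k : ZMod p) + 1)
  have e : ∑ j : Fin n, ∑ k : Fin n, qc p (((j : ℕ) : ZMod p) + 1) * A0 p n j k *
      qc p (((k : ℕ) : ZMod p) + 1) = ∑ j ∈ range n, ∑ k ∈ range n, f j k := by
    rw [← Fin.sum_univ_eq_sum_range (fun j => ∑ k ∈ range n, f j k) n]
    refine Finset.sum_congr rfl fun j _ => ?_
    rw [← Fin.sum_univ_eq_sum_range (fun k => f j k) n]
    rfl
  rw [e]
  have hs : ∀ j k, f j k = f k j := by
    intro j k
    show qc p ((j : ZMod p) + 1) *
      (qc p ((j : ZMod p) + 1 + ((k : ZMod p) + 1)) - qc p ((j : ZMod p) + 1 - ((k : ZMod p) + 1))) *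
      qc p ((k : ZMod p) + 1) = qc p ((k : ZMod p) + 1) *
      (qc p ((k : ZMod p) + 1 + ((j : ZMod p) + 1)) - qc p ((k : ZMod p) + 1 - ((j : ZMod p) + 1))) *
      qc p ((j : ZMod p) + 1)
    have e1 : (j : ZMod p) + 1 - ((k : ZMod p) + 1) = -((k : ZMod p) + 1 - ((j : ZMod p) + 1)) := by
      ring
    rw [e1, hev, add_comm ((j : ZMod p) + 1) ((k : ZMod p) + 1)]
    ring
  have hodd : ∀ a : ZMod p, a ≠ 0 → qc p a = 1 ∨ qc p a = -1 := fun a ha =>
    quadraticChar_dichotomy ha
  have he : ∀ j k, j < n → k < n → j ≠ k → 2 ∣ f j k := by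
    intro j k hj hk hjk
    refine Dvd.dvd.mul_right (Dvd.dvd.mul_left ?_ _) _
    have n1 : (j : ZMod p) + 1 + ((k : ZMod p) + 1) ≠ 0 := by
      intro h
      exact half_ne_neg hn hj hk (eq_neg_of_add_eq_zero_left h)
    have n2 : (j : ZMod p) + 1 - ((k : ZMod p) + 1) ≠ 0 := by
      intro h
      exact hjk ((half_inj hn hj hk).1 (sub_eq_zero.1 h))
    rcases hodd _ n1 with h | h <;> rcases hodd _ n2 with h' | h' <;> rw [h, h'] <;> norm_num
  have hd : ∑ j ∈ range n, f j j = 0 := by
    have e1 : ∀ j ∈ range n, f j j = qc p 2 * qc p ((j : ZMod p) + 1) := by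
      intro j hj
      show qc p ((j : ZMod p) + 1) * (qc p ((j : ZMod p) + 1 + ((j : ZMod p) + 1)) -
        qc p ((j : ZMod p) + 1 - ((j : ZMod p) + 1))) * qc p ((j : ZMod p) + 1) = _
      have e2 : (j : ZMod p) + 1 + ((j : ZMod p) + 1) = 2 * ((j : ZMod p) + 1) := by ring
      rw [sub_self ((j : ZMod p) + 1), qc_zero, sub_zero, e2, qc_mul]
      have := qc_sq (half_ne_zero hn (Finset.mem_range.1 hj))
      linear_combination (qc p 2 * qc p ((j : ZMod p) + 1)) * this
    rw [Finset.sum_congr rfl e1, ← Finset.mul_sum]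
    have h3 := sum_half_even hn (fun a => qc p a) hev
    simp only [qc_zero, zero_add] at h3
    have h4 := sum_qc (p := p) h2
    rw [h4] at h3
    have h5 : ∑ i ∈ range n, qc p ((i : ZMod p) + 1) = 0 := by linarith
    rw [h5, mul_zero]
  have h := four_dvd f n hs he
  rwa [hd, sub_zero] at h

/-- **Q2 of the problem, answered affirmatively.** For every prime `p ≡ 1 (mod 4)` there is an integer
`x`, depending only on `p`, with `E_p = 4 p ^ ((p - 5) / 4) x y z` in `ℤ[y, z]`. -/
theorem result (p : ℕ) [Fact p.Prime] (hp : p % 4 = 1) :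
    ∃ x : ℤ, E p = C (4 * (p : ℤ) ^ ((p - 5) / 4) * x) * (X 0 * X 1) := by
  have hp5 : 5 ≤ p := by
    have := (Fact.out : p.Prime).two_le
    omega
  obtain ⟨m, hm⟩ : ∃ m, p = 4 * (m + 1) + 1 := ⟨(p - 5) / 4, by omega⟩
  set n := 2 * (m + 1) with hndef
  have hn : p = 2 * n + 1 := by omega
  have hev : ∀ a : ZMod p, qc p (-a) = qc p a := fun a => by
    rw [qc_neg, qc_neg_one_of_one hp, one_mul]
  -- the determinant of `A`
  have hsq := A0_sq hn hp
  have hdet : (A0 p n).det = (p : ℤ) ^ (m + 1) ∨ (A0 p n).det = -(p : ℤ) ^ (m + 1) := by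
    rw [← sq_eq_sq_iff_eq_or_eq_neg]
    have := congrArg Matrix.det hsq
    rw [det_mul, det_smul, det_one, mul_one, Fintype.card_fin] at this
    rw [sq, this, ← pow_mul]
    congr 1
    omega
  obtain ⟨s, hs⟩ := sum_dvd hn hp
  -- the matrix over the polynomial ring
  let A : Matrix (Fin n) (Fin n) (MvPolynomial (Fin 2) ℤ) := (A0 p n).map C
  have hA : A * A = (C (p : ℤ) : MvPolynomial (Fin 2) ℤ) • (1 : Matrix (Fin n) (Fin n) _) := by
    have h1 : A * A = (A0 p n * A0 p n).map C := by
      rw [Matrix.map_mul]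
    rw [h1, hsq]
    ext i j
    simp only [Matrix.map_apply, Matrix.smul_apply, Matrix.one_apply, smul_eq_mul, map_mul]
    split_ifs <;> simp
  let u : Fin n → MvPolynomial (Fin 2) ℤ := fun j => C (qc p (((j : ℕ) : ZMod p) + 1))
  have key := det_bordered A u (X 0) (X 1) (C (p : ℤ)) hA
  -- the determinant of the problem is the bordered one
  have hcard : 1 + n = (p + 1) / 2 := by omega
  let e : Fin 1 ⊕ Fin n ≃ Fin ((p + 1) / 2) := finSumFinEquiv.trans (finCongr hcard)
  have eL : ∀ i : Fin 1, ((e (Sum.inl i) : Fin _) : ℕ) = 0 := by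
    intro i
    simp [e]
  have eR : ∀ i : Fin n, ((e (Sum.inr i) : Fin _) : ℕ) = (i : ℕ) + 1 := by
    intro i
    simp [e, add_comm]
  have hE : E p = (fromBlocks (0 : Matrix (Fin 1) (Fin 1) (MvPolynomial (Fin 2) ℤ))
      (of fun _ k => X 1 * u k) (of fun j _ => X 0 * u j)
      (of fun j k => A j k + u j * X 0 + u k * X 1)).det := by
    unfold E
    rw [← Matrix.det_submatrix_equiv_self e]
    congr 1
    refine Matrix.ext fun i k => ?_
    rcases i with i | i <;> rcases k with k | k
    · simp only [submatrix_apply, of_apply, fromBlocks_apply₁₁, eL, Matrix.zero_apply]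
      simp [legendre_eq]
    · simp only [submatrix_apply, of_apply, fromBlocks_apply₁₂, eL, eR, legendre_eq]
      push_cast
      rw [zero_add, zero_sub, hev, sub_self, qc_zero]
      simp only [map_zero, zero_mul, zero_add, u]
      ring
    · simp only [submatrix_apply, of_apply, fromBlocks_apply₂₁, eL, eR, legendre_eq]
      push_cast
      rw [add_zero, sub_zero, sub_self, qc_zero]
      simp only [map_zero, zero_mul, zero_add, add_zero, u]
      ring
    · simp only [submatrix_apply, of_apply, fromBlocks_apply₂₂, eR, legendre_eq]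
      push_cast
      simp only [A, u, Matrix.map_apply, A0, of_apply]
  rw [← hE] at key
  have hS : ∑ j, ∑ k, u j * A j k * u k = C (4 * s) := by
    rw [← hs, map_sum]
    refine Finset.sum_congr rfl fun j _ => ?_
    rw [map_sum]
    refine Finset.sum_congr rfl fun k _ => ?_
    rw [map_mul, map_mul]
    rfl
  have hdetA : A.det = C (A0 p n).det := by
    show ((A0 p n).map C).det = _
    rw [← RingHom.mapMatrix_apply, ← RingHom.map_det]
  rw [hS, hdetA] at key
  have hexp : (p - 5) / 4 = m := by omega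
  rw [hexp]
  have hp0 : (C (p : ℤ) : MvPolynomial (Fin 2) ℤ) ≠ 0 := by
    rw [Ne, MvPolynomial.C_eq_zero]
    exact_mod_cast (Fact.out : p.Prime).ne_zero
  rcases hdet with h | h
  · refine ⟨-s, mul_right_cancel₀ hp0 ?_⟩
    rw [key, h]
    simp only [map_mul, map_pow, map_neg]
    ring
  · refine ⟨s, mul_right_cancel₀ hp0 ?_⟩
    rw [key, h]
    simp only [map_mul, map_pow, map_neg]
    ring

end

end Pool.Agent.Results.MP_c81705_nt.MixedDeterminantQ2
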